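import Mathlib

/-!
# Sparse S-unit identities and their linking

A `Piece m` is an identity `∑ κ_i u^{a_i} v^{b_i} (u+v)^{c_i} (u-v)^{d_i} = 0` between `m + 2`
binary forms of degree `4 m` (written with `v = 1`), such that the all-one relation is the only
linear relation between its terms, one term being a monomial in `u, v` and one a monomial in
`u + v, u - v`.  Two pieces can be linked: the sizes `m` add up.
-/

set_option autoImplicit false

open Polynomial

namespace Pool.Agent.KS6_67.NC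

/-- The term `κ X^a (X+1)^c (X-1)^d`. -/
noncomputable def term (κ : ℤ) (a c d : ℕ) : ℚ[X] :=
  C (κ : ℚ) * (X ^ a * (X + 1) ^ c * (X - 1) ^ d)

theorem term_ne_zero {κ : ℤ} (h : κ ≠ 0) (a c d : ℕ) : term κ a c d ≠ 0 := by
  unfold term
  have h1 : (X + 1 : ℚ[X]) ≠ 0 := by
    rw [← C_1]; exact X_add_C_ne_zero 1
  have h2 : (X - 1 : ℚ[X]) ≠ 0 := by
    rw [← C_1]; exact X_sub_C_ne_zero 1
  have h3 : (C (κ : ℚ)) ≠ 0 := by
    rw [Ne, C_eq_zero]; exact_mod_cast h
  exact mul_ne_zero h3 (mul_ne_zero (mul_ne_zero (pow_ne_zero _ X_ne_zero) (pow_ne_zero _ h1))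
    (pow_ne_zero _ h2))

theorem natDegree_term {κ : ℤ} (h : κ ≠ 0) (a c d : ℕ) :
    (term κ a c d).natDegree = a + c + d := by
  unfold term
  have h1 : (X + 1 : ℚ[X]) ≠ 0 := by
    rw [← C_1]; exact X_add_C_ne_zero 1
  have h2 : (X - 1 : ℚ[X]) ≠ 0 := by
    rw [← C_1]; exact X_sub_C_ne_zero 1
  have h3 : (κ : ℚ) ≠ 0 := by exact_mod_cast h
  rw [natDegree_C_mul h3, natDegree_mul (mul_ne_zero (pow_ne_zero _ X_ne_zero) (pow_ne_zero _ h1))
    (pow_ne_zero _ h2), natDegree_mul (pow_ne_zero _ X_ne_zero) (pow_ne_zero _ h1),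
    natDegree_pow, natDegree_pow, natDegree_pow]
  have e1 : (X + 1 : ℚ[X]).natDegree = 1 := by rw [← C_1]; exact natDegree_X_add_C 1
  have e2 : (X - 1 : ℚ[X]).natDegree = 1 := by rw [← C_1]; exact natDegree_X_sub_C 1
  rw [e1, e2, natDegree_X]
  ring

theorem term_mul (κ κ' : ℤ) (a c d a' c' d' : ℕ) :
    term κ a c d * term κ' a' c' d' = term (κ * κ') (a + a') (c + c') (d + d') := by
  unfold term
  push_cast
  rw [C_mul]
  ring

theorem term_neg (κ : ℤ) (a c d : ℕ) : term (-κ) a c d = - term κ a c d := by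
  unfold term
  push_cast
  rw [C_neg]
  ring

/-- A sparse identity with `m + 2` terms of degree `4 m`. -/
structure Piece (m : ℕ) where
  ι : Type
  fin : Fintype ι
  dec : DecidableEq ι
  κ : ι → ℤ
  a : ι → ℕ
  c : ι → ℕ
  d : ι → ℕ
  card : Fintype.card ι = m + 2
  ne : ∀ i, κ i ≠ 0
  deg : ∀ i, a i + c i + d i ≤ 4 * m
  sum : ∑ i, term (κ i) (a i) (c i) (d i) = 0
  circ : ∀ α : ι → ℚ, ∑ i, C (α i) * term (κ i) (a i) (c i) (d i) = 0 → ∀ i j, α i = α j
  A : ι
  hA1 : c A = 0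
  hA2 : d A = 0
  B : ι
  hB1 : a B = 0
  hB2 : c B + d B = 4 * m

attribute [instance] Piece.fin Piece.dec

/-- The key elimination step: if `t₂ F = t₁ G` with `t₁` a monomial in `X`, `t₂` a product of
powers of `X ± 1` of full degree, then `F` and `G` are the same multiple of `t₁`, `t₂`. -/
theorem elim {κ₁ κ₂ : ℤ} (h1 : κ₁ ≠ 0) (h2 : κ₂ ≠ 0) {a c d : ℕ} {F G : ℚ[X]}
    (hG : G.natDegree ≤ c + d) (h : term κ₂ 0 c d * F = term κ₁ a 0 0 * G) :
    ∃ μ : ℚ, F = C μ * term κ₁ a 0 0 ∧ G = C μ * term κ₂ 0 c d := by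
  have hcop : IsCoprime (term κ₂ 0 c d) (term κ₁ a 0 0) := by
    unfold term
    have hx1 : IsCoprime (X + 1 : ℚ[X]) X := ⟨1, -1, by ring⟩
    have hx2 : IsCoprime (X - 1 : ℚ[X]) X := ⟨-1, 1, by ring⟩
    have u1 : IsUnit (C (κ₁ : ℚ)) := by
      rw [isUnit_C]; exact isUnit_iff_ne_zero.mpr (by exact_mod_cast h1)
    have u2 : IsUnit (C (κ₂ : ℚ)) := by
      rw [isUnit_C]; exact isUnit_iff_ne_zero.mpr (by exact_mod_cast h2)
    rw [isCoprime_mul_unit_left_left u2, isCoprime_mul_unit_left_right u1]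
    simp only [pow_zero, one_mul, mul_one]
    exact IsCoprime.mul_left (hx1.pow) (hx2.pow)
  have hdvd : term κ₂ 0 c d ∣ G := hcop.dvd_of_dvd_mul_left ⟨F, h.symm⟩
  obtain ⟨H, hH⟩ := hdvd
  have ht2 := term_ne_zero h2 0 c d
  have hHd : H.natDegree = 0 := by
    by_cases hH0 : H = 0
    · rw [hH0, natDegree_zero]
    · have := natDegree_mul ht2 hH0
      rw [← hH, natDegree_term h2] at this
      omega
  obtain ⟨μ, hμ⟩ := natDegree_eq_zero.mp hHd
  refine ⟨μ, ?_, ?_⟩
  · rw [hH, ← hμ] at h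
    have : term κ₂ 0 c d * F = term κ₂ 0 c d * (C μ * term κ₁ a 0 0) := by
      rw [h]; ring
    exact mul_left_cancel₀ ht2 this
  · rw [hH, ← hμ]; ring

theorem Piece.A_ne_B {m : ℕ} (hm : 1 ≤ m) (P : Piece m) : P.A ≠ P.B := by
  intro h
  have h1 := P.hB2
  rw [← h, P.hA1, P.hA2] at h1
  omega

/-- sum over a type as value at a point plus the sum over the complement subtype -/
theorem sum_split {ι : Type} [Fintype ι] [DecidableEq ι] {M : Type} [AddCommMonoid M] (i₀ : ι)
    (f : ι → M) : ∑ i, f i = f i₀ + ∑ i : {i // i ≠ i₀}, f i := by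
  exact Fintype.sum_eq_add_sum_subtype_ne f i₀

/-- Linking of two pieces. -/
noncomputable def link {m₁ m₂ : ℕ} (h₁ : 1 ≤ m₁) (h₂ : 1 ≤ m₂) (P : Piece m₁) (Q : Piece m₂) :
    Piece (m₁ + m₂) where
  ι := {i : P.ι // i ≠ P.A} ⊕ {j : Q.ι // j ≠ Q.B}
  fin := inferInstance
  dec := inferInstance
  κ := Sum.elim (fun i => Q.κ Q.B * P.κ i) (fun j => -(P.κ P.A * Q.κ j))
  a := Sum.elim (fun i => P.a i) (fun j => P.a P.A + Q.a j)
  c := Sum.elim (fun i => Q.c Q.B + P.c i) (fun j => Q.c j)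
  d := Sum.elim (fun i => Q.d Q.B + P.d i) (fun j => Q.d j)
  card := by
    rw [Fintype.card_sum, Fintype.card_subtype_compl, Fintype.card_subtype_compl, P.card, Q.card]
    simp
    omega
  ne := by
    rintro (i | j)
    · exact mul_ne_zero (Q.ne _) (P.ne _)
    · exact neg_ne_zero.mpr (mul_ne_zero (P.ne _) (Q.ne _))
  deg := by
    rintro (i | j)
    · have := P.deg i
      have := Q.hB2
      simp only [Sum.elim_inl]
      omega
    · have := P.deg P.A
      have := Q.deg j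
      simp only [Sum.elim_inr]
      omega
  sum := by
    rw [Fintype.sum_sum_type]
    simp only [Sum.elim_inl, Sum.elim_inr]
    have e1 : ∀ i : {i : P.ι // i ≠ P.A},
        term (Q.κ Q.B * P.κ i) (P.a i) (Q.c Q.B + P.c i) (Q.d Q.B + P.d i) =
          term (Q.κ Q.B) 0 (Q.c Q.B) (Q.d Q.B) * term (P.κ i) (P.a i) (P.c i) (P.d i) := by
      intro i
      rw [term_mul, zero_add]
    have e2 : ∀ j : {j : Q.ι // j ≠ Q.B},
        term (-(P.κ P.A * Q.κ j)) (P.a P.A + Q.a j) (Q.c j) (Q.d j) =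
          -(term (P.κ P.A) (P.a P.A) 0 0 * term (Q.κ j) (Q.a j) (Q.c j) (Q.d j)) := by
      intro j
      rw [term_mul, zero_add, zero_add, term_neg]
    rw [Finset.sum_congr rfl (fun i _ => e1 i), Finset.sum_congr rfl (fun j _ => e2 j),
      ← Finset.mul_sum, Finset.sum_neg_distrib, ← Finset.mul_sum]
    have s1 := P.sum
    have s2 := Q.sum
    rw [sum_split P.A] at s1
    rw [sum_split Q.B] at s2
    rw [P.hA1, P.hA2] at s1
    rw [Q.hB1] at s2
    rw [eq_neg_of_add_eq_zero_right s1, eq_neg_of_add_eq_zero_right s2]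
    ring
  circ := by
    intro α hα
    rw [Fintype.sum_sum_type] at hα
    simp only [Sum.elim_inl, Sum.elim_inr] at hα
    have e1 : ∀ i : {i : P.ι // i ≠ P.A},
        C (α (Sum.inl i)) * term (Q.κ Q.B * P.κ i) (P.a i) (Q.c Q.B + P.c i) (Q.d Q.B + P.d i) =
          term (Q.κ Q.B) 0 (Q.c Q.B) (Q.d Q.B) *
            (C (α (Sum.inl i)) * term (P.κ i) (P.a i) (P.c i) (P.d i)) := by
      intro i
      rw [mul_left_comm, term_mul, zero_add]
    have e2 : ∀ j : {j : Q.ι // j ≠ Q.B},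
        C (α (Sum.inr j)) * term (-(P.κ P.A * Q.κ j)) (P.a P.A + Q.a j) (Q.c j) (Q.d j) =
          -(term (P.κ P.A) (P.a P.A) 0 0 *
            (C (α (Sum.inr j)) * term (Q.κ j) (Q.a j) (Q.c j) (Q.d j))) := by
      intro j
      rw [mul_left_comm, term_mul, zero_add, zero_add, term_neg]
      ring
    rw [Finset.sum_congr rfl (fun i _ => e1 i), Finset.sum_congr rfl (fun j _ => e2 j),
      ← Finset.mul_sum, Finset.sum_neg_distrib, ← Finset.mul_sum, ← sub_eq_add_neg,
      sub_eq_zero] at hα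
    have hdeg : (∑ j : {j : Q.ι // j ≠ Q.B},
        C (α (Sum.inr j)) * term (Q.κ j) (Q.a j) (Q.c j) (Q.d j)).natDegree ≤
          Q.c Q.B + Q.d Q.B := by
      apply natDegree_sum_le_of_forall_le
      intro j _
      refine (natDegree_C_mul_le _ _).trans ?_
      rw [natDegree_term (Q.ne _), Q.hB2]
      exact Q.deg j
    obtain ⟨μ, hF, hG⟩ := elim (P.ne P.A) (Q.ne Q.B) hdeg hα
    -- relation in `P`
    have r1 : ∀ i : {i : P.ι // i ≠ P.A}, α (Sum.inl i) = -μ := by
      have h0 : ∑ i, C ((fun i => if h : i = P.A then -μ else α (Sum.inl ⟨i, h⟩)) i) *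
          term (P.κ i) (P.a i) (P.c i) (P.d i) = 0 := by
        rw [sum_split P.A]
        have e3 : ∀ i : {i : P.ι // i ≠ P.A},
            C ((fun i => if h : i = P.A then -μ else α (Sum.inl ⟨i, h⟩)) i.1) *
              term (P.κ i) (P.a i) (P.c i) (P.d i) =
              C (α (Sum.inl i)) * term (P.κ i) (P.a i) (P.c i) (P.d i) := by
          intro i
          simp only [dif_neg i.2]
        rw [Finset.sum_congr rfl (fun i _ => e3 i), hF]
        simp only [dif_pos, P.hA1, P.hA2, C_neg]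
        ring
      intro i
      have := P.circ _ h0 i.1 P.A
      simp only [dif_neg i.2, dif_pos] at this
      exact this
    have r2 : ∀ j : {j : Q.ι // j ≠ Q.B}, α (Sum.inr j) = -μ := by
      have h0 : ∑ i, C ((fun i => if h : i = Q.B then -μ else α (Sum.inr ⟨i, h⟩)) i) *
          term (Q.κ i) (Q.a i) (Q.c i) (Q.d i) = 0 := by
        rw [sum_split Q.B]
        have e3 : ∀ i : {i : Q.ι // i ≠ Q.B},
            C ((fun i => if h : i = Q.B then -μ else α (Sum.inr ⟨i, h⟩)) i.1) *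
              term (Q.κ i) (Q.a i) (Q.c i) (Q.d i) =
              C (α (Sum.inr i)) * term (Q.κ i) (Q.a i) (Q.c i) (Q.d i) := by
          intro i
          simp only [dif_neg i.2]
        rw [Finset.sum_congr rfl (fun i _ => e3 i), hG]
        simp only [dif_pos, Q.hB1, C_neg]
        ring
      intro i
      have := Q.circ _ h0 i.1 Q.B
      simp only [dif_neg i.2, dif_pos] at this
      exact this
    have r : ∀ s, α s = -μ := by
      rintro (i | j)
      · exact r1 i
      · exact r2 j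
    intro i j
    rw [r i, r j]
  A := Sum.inr ⟨Q.A, Q.A_ne_B h₂⟩
  hA1 := by simp only [Sum.elim_inr]; exact Q.hA1
  hA2 := by simp only [Sum.elim_inr]; exact Q.hA2
  B := Sum.inl ⟨P.B, (P.A_ne_B h₁).symm⟩
  hB1 := by simp only [Sum.elim_inl]; exact P.hB1
  hB2 := by
    simp only [Sum.elim_inl]
    have := P.hB2
    have := Q.hB2
    omega

end Pool.Agent.KS6_67.NC
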