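import Pool.Agent.KS6_67.NC.Circuit

/-!
# Evaluation of a piece at `u = 2^(3^j)`, `v = 1`
-/

set_option autoImplicit false

open Polynomial

namespace Pool.Agent.KS6_67.NC

variable {m : ℕ}

/-- The integer value of the `i`-th term at `u = T`, `v = 1`. -/
def Piece.val (P : Piece m) (T : ℤ) (i : P.ι) : ℤ :=
  P.κ i * (T ^ P.a i * (T + 1) ^ P.c i * (T - 1) ^ P.d i)

theorem eval_term (κ : ℤ) (a c d : ℕ) (T : ℤ) :
    (term κ a c d).eval (T : ℚ) = ((κ * (T ^ a * (T + 1) ^ c * (T - 1) ^ d) : ℤ) : ℚ) := by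
  unfold term
  simp

theorem Piece.eval_val (P : Piece m) (T : ℤ) (i : P.ι) :
    (term (P.κ i) (P.a i) (P.c i) (P.d i)).eval (T : ℚ) = (P.val T i : ℚ) :=
  eval_term _ _ _ _ _

theorem Piece.sum_val (P : Piece m) (T : ℤ) : ∑ i, P.val T i = 0 := by
  have h := congrArg (Polynomial.eval (T : ℚ)) P.sum
  rw [eval_finsetSum, eval_zero] at h
  simp only [P.eval_val] at h
  exact_mod_cast h

theorem Piece.subsum_ne (P : Piece m) (I : Finset P.ι) (h1 : I.Nonempty)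
    (h2 : I ≠ Finset.univ) :
    ∑ i ∈ I, term (P.κ i) (P.a i) (P.c i) (P.d i) ≠ 0 := by
  intro h
  obtain ⟨i, hi⟩ := h1
  obtain ⟨j, hj⟩ : ∃ j, j ∉ I := by
    by_contra hc
    push Not at hc
    exact h2 (Finset.eq_univ_iff_forall.mpr hc)
  have h3 := P.circ (fun i => if i ∈ I then 1 else 0) (by
    rw [← h]
    simp only [apply_ite C, C_1, C_0, ite_mul, one_mul, zero_mul, Finset.sum_ite_mem,
      Finset.univ_inter]) i j
  simp [hi, hj] at h3

theorem Piece.exists_bound (P : Piece m) : ∃ B : ℚ, ∀ T : ℤ, B < T →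
    ∀ I : Finset P.ι, I.Nonempty → I ≠ Finset.univ → ∑ i ∈ I, P.val T i ≠ 0 := by
  classical
  set p : ℚ[X] := ∏ I ∈ (Finset.univ : Finset (Finset P.ι)).filter
    (fun I => I.Nonempty ∧ I ≠ Finset.univ), ∑ i ∈ I, term (P.κ i) (P.a i) (P.c i) (P.d i) with hp
  have hp0 : p ≠ 0 := by
    rw [hp, Finset.prod_ne_zero_iff]
    intro I hI
    rw [Finset.mem_filter] at hI
    exact P.subsum_ne I hI.2.1 hI.2.2
  obtain ⟨B, hB⟩ := Polynomial.exists_max_root p hp0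
  refine ⟨B, fun T hT I h1 h2 h0 => ?_⟩
  have hroot : p.IsRoot (T : ℚ) := by
    rw [IsRoot.def, hp, eval_prod]
    apply Finset.prod_eq_zero (i := I)
    · rw [Finset.mem_filter]; exact ⟨Finset.mem_univ _, h1, h2⟩
    · rw [eval_finsetSum]
      simp only [P.eval_val]
      exact_mod_cast h0
  have := hB _ hroot
  linarith

theorem three_pow_dvd (j : ℕ) : 3 ^ (j + 1) ∣ 4 ^ (3 ^ j) - 1 := by
  induction j with
  | zero => norm_num
  | succ j ih =>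
    have h1 : (4 ^ 3 ^ (j + 1) - 1 : ℕ) = (4 ^ 3 ^ j - 1) * ((4 ^ 3 ^ j) ^ 2 + 4 ^ 3 ^ j + 1) := by
      have hge : 1 ≤ 4 ^ 3 ^ j := Nat.one_le_pow _ _ (by norm_num)
      obtain ⟨y, hy⟩ : ∃ y, 4 ^ 3 ^ j = y + 1 := ⟨4 ^ 3 ^ j - 1, by omega⟩
      rw [pow_succ 3 j, pow_mul, hy]
      have : (y + 1) ^ 3 = y * ((y + 1) ^ 2 + (y + 1) + 1) + 1 := by ring
      rw [this, Nat.add_sub_cancel, Nat.add_sub_cancel]
    rw [h1, pow_succ]
    apply Nat.mul_dvd_mul ih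
    have h4 : 4 ^ 3 ^ j ≡ 1 [MOD 3] := by
      have : 4 ≡ 1 [MOD 3] := by decide
      simpa using this.pow (3 ^ j)
    have h5 : (4 ^ 3 ^ j) ^ 2 + 4 ^ 3 ^ j + 1 ≡ 0 [MOD 3] := by
      have := ((h4.pow 2).add h4).add_right 1
      exact this.trans (by decide)
    exact (Nat.modEq_zero_iff_dvd).mp h5

/-- the parameter `T = 2^(3^j)` -/
def TT (j : ℕ) : ℤ := 2 ^ 3 ^ j

theorem TT_ge (j : ℕ) : 2 ≤ TT j := by
  unfold TT
  have : (2 : ℤ) ^ 1 ≤ 2 ^ 3 ^ j := pow_le_pow_right₀ (by norm_num) (Nat.one_le_pow _ _ (by norm_num))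
  simpa using this

theorem TT_large (B : ℚ) : ∃ j₀ : ℕ, ∀ j, j₀ ≤ j → B < (TT j : ℚ) := by
  obtain ⟨n, hn⟩ := exists_nat_gt B
  refine ⟨n, fun j hj => hn.trans_le ?_⟩
  unfold TT
  have h1 : n ≤ 2 ^ 3 ^ j := by
    calc n ≤ j := hj
      _ ≤ 3 ^ j := (Nat.lt_pow_self (by norm_num)).le
      _ ≤ 2 ^ 3 ^ j := (Nat.lt_pow_self (by norm_num)).le
  exact_mod_cast h1

/-- `(4^(3^j) - 1) / 3^j` as a natural number -/
def WW (j : ℕ) : ℕ := (4 ^ 3 ^ j - 1) / 3 ^ j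

theorem WW_mul (j : ℕ) : WW j * 3 ^ j = 4 ^ 3 ^ j - 1 := by
  unfold WW
  apply Nat.div_mul_cancel
  exact (pow_dvd_pow 3 (Nat.le_succ j)).trans (three_pow_dvd j)

theorem WW_pos (j : ℕ) : 0 < WW j := by
  have h := WW_mul j
  have h2 : 4 ^ 1 ≤ 4 ^ 3 ^ j := Nat.pow_le_pow_right (by norm_num) (Nat.one_le_pow _ _ (by norm_num))
  rcases Nat.eq_zero_or_pos (WW j) with h0 | h0
  · rw [h0] at h; omega
  · exact h0

theorem WW_prime {j p : ℕ} (hp : p.Prime) (h : p ∣ 4 ^ 3 ^ j - 1) : p ∣ WW j := by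
  by_cases h3 : p = 3
  · subst h3
    have h1 : 3 ^ j * 3 ∣ WW j * 3 ^ j := by
      rw [WW_mul, ← pow_succ]; exact three_pow_dvd j
    rw [mul_comm (WW j)] at h1
    exact Nat.dvd_of_mul_dvd_mul_left (by positivity) h1
  · rw [← WW_mul] at h
    rcases hp.dvd_mul.mp h with h | h
    · exact h
    · exfalso
      exact h3 ((Nat.prime_dvd_prime_iff_eq hp Nat.prime_three).mp (hp.dvd_of_dvd_pow h))

theorem TT_sq (j : ℕ) : TT j ^ 2 - 1 = ((4 ^ 3 ^ j - 1 : ℕ) : ℤ) := by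
  unfold TT
  rw [Nat.cast_sub (Nat.one_le_pow _ _ (by norm_num))]
  push_cast
  rw [← pow_mul, mul_comm, pow_mul]
  norm_num

/-- radical -/
def rad {ι : Type} [Fintype ι] (x : ι → ℤ) : ℕ := (∏ j, x j).natAbs.primeFactors.prod id

theorem rad_le_of {ι : Type} [Fintype ι] (x : ι → ℤ) {M : ℕ} (hM : M ≠ 0)
    (h : ∀ p : ℕ, p.Prime → ∀ i, (p : ℤ) ∣ x i → p ∣ M) : rad x ≤ M := by
  have hsub : (∏ j, x j).natAbs.primeFactors ⊆ M.primeFactors := by
    intro p hp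
    rw [Nat.mem_primeFactors] at hp ⊢
    obtain ⟨hpp, hpd, _⟩ := hp
    refine ⟨hpp, ?_, hM⟩
    have hpi : Prime (p : ℤ) := Nat.prime_iff_prime_int.mp hpp
    have hd : (p : ℤ) ∣ ∏ j, x j := Int.natCast_dvd.mpr hpd
    obtain ⟨i, _, hi⟩ := (Prime.dvd_finsetProd_iff hpi _).mp hd
    exact h p hpp i hi
  have h1 : (∏ j, x j).natAbs.primeFactors.prod id ≤ M.primeFactors.prod id := by
    apply Finset.prod_le_prod_of_subset_of_one_le' hsub
    intro i hi _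
    exact (Nat.prime_of_mem_primeFactors hi).one_le
  exact h1.trans (Nat.le_of_dvd (Nat.pos_of_ne_zero hM) (Nat.prod_primeFactors_dvd _))

theorem Piece.prime_dvd (P : Piece m) {j p : ℕ} (hp : p.Prime) {i : P.ι}
    (h : (p : ℤ) ∣ P.val (TT j) i) : p ∣ 2 * (∏ i, (P.κ i).natAbs) * WW j := by
  have hpi : Prime (p : ℤ) := Nat.prime_iff_prime_int.mp hp
  have hW : (p : ℤ) ∣ TT j ^ 2 - 1 → p ∣ WW j := by
    intro h1
    rw [TT_sq] at h1
    exact WW_prime hp (by exact_mod_cast h1)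
  unfold Piece.val at h
  rcases hpi.dvd_or_dvd h with h | h
  · have h1 : p ∣ (P.κ i).natAbs := Int.natCast_dvd.mp h
    have h2 : p ∣ ∏ i, (P.κ i).natAbs := h1.trans (Finset.dvd_prod_of_mem _ (Finset.mem_univ i))
    exact Dvd.dvd.mul_right (Dvd.dvd.mul_left h2 _) _
  rcases hpi.dvd_or_dvd h with h | h
  · rcases hpi.dvd_or_dvd h with h | h
    · have h1 := hpi.dvd_of_dvd_pow h
      unfold TT at h1
      have h2 : (p : ℤ) ∣ ((2 : ℕ) : ℤ) := by exact_mod_cast hpi.dvd_of_dvd_pow h1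
      have h3 : p ∣ 2 := by exact_mod_cast h2
      exact Dvd.dvd.mul_right (Dvd.dvd.mul_right h3 _) _
    · have h1 := hpi.dvd_of_dvd_pow h
      exact Dvd.dvd.mul_left (hW (h1.trans ⟨TT j - 1, by ring⟩)) _
  · have h1 := hpi.dvd_of_dvd_pow h
    exact Dvd.dvd.mul_left (hW (h1.trans ⟨TT j + 1, by ring⟩)) _

theorem odd_pow_coprime (j a c d : ℕ) : IsCoprime (TT j ^ a) ((TT j + 1) ^ c * (TT j - 1) ^ d) := by
  have h1 : IsCoprime (TT j) (TT j + 1) := ⟨-1, 1, by ring⟩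
  have h2 : IsCoprime (TT j) (TT j - 1) := ⟨1, -1, by ring⟩
  exact (IsCoprime.mul_right h1.pow_right h2.pow_right).pow_left

theorem Piece.gcd_dvd (P : Piece m) (j : ℕ) {g : ℤ} (hA : g ∣ P.val (TT j) P.A)
    (hB : g ∣ P.val (TT j) P.B) : g ∣ P.κ P.A * P.κ P.B := by
  unfold Piece.val at hA hB
  rw [P.hA1, P.hA2, pow_zero, pow_zero, mul_one, mul_one] at hA
  rw [P.hB1, pow_zero, one_mul] at hB
  obtain ⟨x, y, hxy⟩ := odd_pow_coprime j (P.a P.A) (P.c P.B) (P.d P.B)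
  have e : P.κ P.A * P.κ P.B = (P.κ P.A * TT j ^ P.a P.A) * (P.κ P.B * x) +
      (P.κ P.B * ((TT j + 1) ^ P.c P.B * (TT j - 1) ^ P.d P.B)) * (P.κ P.A * y) := by
    calc P.κ P.A * P.κ P.B = P.κ P.A * P.κ P.B * (x * TT j ^ P.a P.A +
          y * ((TT j + 1) ^ P.c P.B * (TT j - 1) ^ P.d P.B)) := by rw [hxy, mul_one]
      _ = _ := by ring
  rw [e]
  exact dvd_add (Dvd.dvd.mul_right hA _) (Dvd.dvd.mul_right hB _)

theorem Piece.val_B (P : Piece m) (j : ℕ) :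
    ((TT j : ℝ) / 2) ^ (4 * m) ≤ |(P.val (TT j) P.B : ℝ)| := by
  have hT : (2 : ℝ) ≤ (TT j : ℝ) := by exact_mod_cast TT_ge j
  have h1 : (1 : ℝ) ≤ |(P.κ P.B : ℝ)| := by
    have : 1 ≤ |P.κ P.B| := Int.one_le_abs (P.ne _)
    exact_mod_cast this
  unfold Piece.val
  rw [P.hB1, pow_zero, one_mul]
  push_cast
  rw [abs_mul, abs_mul, abs_pow, abs_pow, abs_of_pos (by linarith : (0 : ℝ) < TT j + 1),
    abs_of_pos (by linarith : (0 : ℝ) < TT j - 1), ← P.hB2, pow_add]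
  have h2 : ((TT j : ℝ) / 2) ^ P.c P.B ≤ ((TT j : ℝ) + 1) ^ P.c P.B :=
    pow_le_pow_left₀ (by linarith) (by linarith) _
  have h3 : ((TT j : ℝ) / 2) ^ P.d P.B ≤ ((TT j : ℝ) - 1) ^ P.d P.B :=
    pow_le_pow_left₀ (by linarith) (by linarith) _
  calc ((TT j : ℝ) / 2) ^ P.c P.B * ((TT j : ℝ) / 2) ^ P.d P.B
      ≤ ((TT j : ℝ) + 1) ^ P.c P.B * ((TT j : ℝ) - 1) ^ P.d P.B :=
        mul_le_mul h2 h3 (by positivity) (by positivity)
    _ = 1 * (((TT j : ℝ) + 1) ^ P.c P.B * ((TT j : ℝ) - 1) ^ P.d P.B) := by rw [one_mul]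
    _ ≤ |(P.κ P.B : ℝ)| * (((TT j : ℝ) + 1) ^ P.c P.B * ((TT j : ℝ) - 1) ^ P.d P.B) := by
        apply mul_le_mul_of_nonneg_right h1
        have : (0 : ℝ) ≤ TT j - 1 := by linarith
        positivity

/-- The family attached to a piece, on its own index type. -/
theorem Piece.family (hm : 1 ≤ m) (P : Piece m) (K₀ : ℝ) :
    ∃ y : P.ι → ℤ, ∑ i, y i = 0 ∧ Finset.univ.gcd y = 1 ∧
      (∀ I : Finset P.ι, I.Nonempty → I ≠ Finset.univ → ∑ i ∈ I, y i ≠ 0) ∧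
      ∃ i, K₀ * (rad y : ℝ) ^ (2 * m) < ((|y i| : ℤ) : ℝ) := by
  classical
  obtain ⟨B, hB⟩ := P.exists_bound
  obtain ⟨j₀, hj₀⟩ := TT_large B
  set G₀ : ℝ := |((P.κ P.A * P.κ P.B : ℤ) : ℝ)| with hG₀
  set K : ℕ := ∏ i, (P.κ i).natAbs with hK
  have hKne : K ≠ 0 := by
    rw [hK, Finset.prod_ne_zero_iff]
    intro i _
    exact Int.natAbs_ne_zero.mpr (P.ne i)
  obtain ⟨j₁, hj₁⟩ := pow_unbounded_of_one_lt (|K₀| * (2 * K) ^ (2 * m) * 2 ^ (4 * m) * G₀)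
    (show (1 : ℝ) < 3 by norm_num)
  set j := j₀ + j₁ with hj
  have hTj := hj₀ j (by omega)
  have hT2 : (2 : ℝ) ≤ (TT j : ℝ) := by exact_mod_cast TT_ge j
  set x := P.val (TT j) with hx
  set g := Finset.univ.gcd x with hg
  have hxB : x P.B ≠ 0 := by
    have := P.val_B j
    intro h0
    rw [← hx, h0] at this
    simp only [Int.cast_zero, abs_zero] at this
    have h2 : (0 : ℝ) < ((TT j : ℝ) / 2) ^ (4 * m) := by positivity
    linarith
  have hgne : g ≠ 0 := by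
    intro h0
    have : g ∣ x P.B := Finset.gcd_dvd (Finset.mem_univ _)
    rw [h0, zero_dvd_iff] at this
    exact hxB this
  have hdiv : ∀ i, x i / g * g = x i := fun i =>
    Int.ediv_mul_cancel (Finset.gcd_dvd (Finset.mem_univ _))
  refine ⟨fun i => x i / g, ?_, ?_, ?_, P.B, ?_⟩
  · have h1 : (∑ i, x i / g) * g = 0 := by
      rw [Finset.sum_mul, Finset.sum_congr rfl (fun i _ => hdiv i)]
      exact P.sum_val _
    exact (mul_eq_zero.mp h1).resolve_right hgne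
  · exact Finset.gcd_div_eq_one (Finset.mem_univ P.B) hxB
  · intro I h1 h2 h0
    apply hB (TT j) hTj I h1 h2
    have h3 : (∑ i ∈ I, x i / g) * g = 0 := by rw [h0, zero_mul]
    rw [Finset.sum_mul, Finset.sum_congr rfl (fun i _ => hdiv i)] at h3
    exact h3
  · -- size estimates
    have hrad : rad (fun i => x i / g) ≤ 2 * K * WW j := by
      apply rad_le_of
      · have := WW_pos j
        positivity
      · intro p hp i hi
        apply P.prime_dvd hp (i := i)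
        rw [← hx, ← hdiv i]
        exact Dvd.dvd.mul_right hi _
    have hrad' : (rad (fun i => x i / g) : ℝ) * 3 ^ j ≤ 2 * K * (TT j : ℝ) ^ 2 := by
      have h1 : (rad (fun i => x i / g) : ℝ) ≤ 2 * K * WW j := by exact_mod_cast hrad
      have h2 : (WW j : ℝ) * 3 ^ j ≤ (TT j : ℝ) ^ 2 := by
        have h3 : (WW j : ℝ) * 3 ^ j = ((4 ^ 3 ^ j - 1 : ℕ) : ℝ) := by
          rw [← WW_mul]; push_cast; ring
        have h4 : ((TT j : ℝ)) ^ 2 - 1 = ((4 ^ 3 ^ j - 1 : ℕ) : ℝ) := by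
          have := TT_sq j
          exact_mod_cast this
        rw [h3, ← h4]; linarith
      calc (rad (fun i => x i / g) : ℝ) * 3 ^ j ≤ (2 * K * WW j) * 3 ^ j :=
            mul_le_mul_of_nonneg_right h1 (by positivity)
        _ = 2 * K * (WW j * 3 ^ j) := by ring
        _ ≤ 2 * K * (TT j : ℝ) ^ 2 := by
            apply mul_le_mul_of_nonneg_left h2 (by positivity)
    have hgabs : |(g : ℝ)| ≤ G₀ := by
      have h1 : g ∣ P.κ P.A * P.κ P.B := P.gcd_dvd j (Finset.gcd_dvd (Finset.mem_univ _))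
        (Finset.gcd_dvd (Finset.mem_univ _))
      have h2 : P.κ P.A * P.κ P.B ≠ 0 := mul_ne_zero (P.ne _) (P.ne _)
      have h3 : |g| ≤ |P.κ P.A * P.κ P.B| := Int.le_of_dvd (abs_pos.mpr h2) ((abs_dvd_abs _ _).mpr h1)
      rw [hG₀]
      exact_mod_cast h3
    have hG₀pos : 0 < G₀ := by
      rw [hG₀]
      apply abs_pos.mpr
      exact_mod_cast mul_ne_zero (P.ne _) (P.ne _)
    have hyB : |(x P.B : ℝ)| ≤ ((|x P.B / g| : ℤ) : ℝ) * G₀ := by
      have h1 : ((x P.B / g : ℤ) : ℝ) * (g : ℝ) = (x P.B : ℝ) := by exact_mod_cast hdiv P.B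
      rw [← h1, abs_mul]
      push_cast
      exact mul_le_mul_of_nonneg_left hgabs (abs_nonneg _)
    have hval := P.val_B j
    rw [← hx] at hval
    set R : ℝ := (rad (fun i => x i / g) : ℝ) with hR
    have hR0 : 0 ≤ R := Nat.cast_nonneg _
    set T : ℝ := (TT j : ℝ) with hT
    have hT0 : 0 < T := by linarith
    -- `R^(2m) * 3^(2mj) ≤ (2K)^(2m) T^(4m)`
    have h5 : R ^ (2 * m) * (3 ^ j) ^ (2 * m) ≤ (2 * K) ^ (2 * m) * T ^ (4 * m) := by
      rw [← mul_pow]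
      calc (R * 3 ^ j) ^ (2 * m) ≤ (2 * K * T ^ 2) ^ (2 * m) :=
            pow_le_pow_left₀ (by positivity) hrad' _
        _ = (2 * K) ^ (2 * m) * T ^ (4 * m) := by
            rw [mul_pow, ← pow_mul]; congr 2; ring
    have h6 : |K₀| * (2 * K) ^ (2 * m) * 2 ^ (4 * m) * G₀ < (3 ^ j) ^ (2 * m) := by
      refine hj₁.trans_le ?_
      calc (3 : ℝ) ^ j₁ ≤ 3 ^ j := pow_le_pow_right₀ (by norm_num) (by omega)
        _ = (3 ^ j) ^ 1 := (pow_one _).symm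
        _ ≤ (3 ^ j) ^ (2 * m) := pow_le_pow_right₀ (one_le_pow₀ (by norm_num)) (by omega)
    have h7 : (T / 2) ^ (4 * m) * 2 ^ (4 * m) = T ^ (4 * m) := by
      rw [← mul_pow]; congr 1; ring
    have h8 : (0 : ℝ) < (3 ^ j) ^ (2 * m) := by positivity
    have h9 : K₀ * R ^ (2 * m) * ((3 ^ j) ^ (2 * m) * (2 ^ (4 * m) * G₀)) <
        ((|x P.B / g| : ℤ) : ℝ) * ((3 ^ j) ^ (2 * m) * (2 ^ (4 * m) * G₀)) := by
      calc K₀ * R ^ (2 * m) * ((3 ^ j) ^ (2 * m) * (2 ^ (4 * m) * G₀))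
          = K₀ * (R ^ (2 * m) * (3 ^ j) ^ (2 * m) * (2 ^ (4 * m) * G₀)) := by ring
        _ ≤ |K₀| * (R ^ (2 * m) * (3 ^ j) ^ (2 * m) * (2 ^ (4 * m) * G₀)) :=
            mul_le_mul_of_nonneg_right (le_abs_self _) (by positivity)
        _ ≤ |K₀| * ((2 * K) ^ (2 * m) * T ^ (4 * m) * (2 ^ (4 * m) * G₀)) := by
            apply mul_le_mul_of_nonneg_left _ (abs_nonneg _)
            apply mul_le_mul_of_nonneg_right h5 (by positivity)
        _ = (|K₀| * (2 * K) ^ (2 * m) * 2 ^ (4 * m) * G₀) * T ^ (4 * m) := by ring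
        _ < (3 ^ j) ^ (2 * m) * T ^ (4 * m) := mul_lt_mul_of_pos_right h6 (by positivity)
        _ = (3 ^ j) ^ (2 * m) * 2 ^ (4 * m) * (T / 2) ^ (4 * m) := by rw [← h7]; ring
        _ ≤ (3 ^ j) ^ (2 * m) * 2 ^ (4 * m) * (((|x P.B / g| : ℤ) : ℝ) * G₀) := by
            apply mul_le_mul_of_nonneg_left (hval.trans hyB) (by positivity)
        _ = _ := by ring
    exact lt_of_mul_lt_mul_right h9 (by positivity)

/-- The family, indexed by `Fin (m + 2)`. -/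
theorem Piece.fails (hm : 1 ≤ m) (P : Piece m) (K₀ : ℝ) :
    ∃ y : Fin (m + 2) → ℤ, ∑ i, y i = 0 ∧ Finset.univ.gcd y = 1 ∧
      (∀ I : Finset (Fin (m + 2)), I.Nonempty → I ≠ Finset.univ → ∑ i ∈ I, y i ≠ 0) ∧
      ∃ i, K₀ * (rad y : ℝ) ^ (2 * m) < ((|y i| : ℤ) : ℝ) := by
  classical
  obtain ⟨y, h1, h2, h3, i, h4⟩ := P.family hm K₀
  set e : Fin (m + 2) ≃ P.ι := (Fintype.equivFinOfCardEq P.card).symm with he
  refine ⟨y ∘ e, ?_, ?_, ?_, e.symm i, ?_⟩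
  · rw [← h1]; exact Equiv.sum_comp e y
  · rw [← h2]
    apply dvd_antisymm_of_normalize_eq Finset.normalize_gcd Finset.normalize_gcd
    · apply Finset.dvd_gcd
      intro b _
      have : y b = (y ∘ e) (e.symm b) := by simp
      rw [this]
      exact Finset.gcd_dvd (Finset.mem_univ _)
    · apply Finset.dvd_gcd
      intro b _
      exact Finset.gcd_dvd (Finset.mem_univ _)
  · intro I hI hI' h0
    apply h3 (I.map e.toEmbedding) (hI.map) ?_ ?_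
    · intro h
      apply hI'
      rw [Finset.eq_univ_iff_forall]
      intro a
      have : e a ∈ I.map e.toEmbedding := by rw [h]; exact Finset.mem_univ _
      rw [Finset.mem_map] at this
      obtain ⟨b, hb, hb'⟩ := this
      rw [Equiv.coe_toEmbedding] at hb'
      rwa [← e.injective hb']
    · rw [Finset.sum_map]; exact h0
  · have hr : rad (y ∘ e) = rad y := by
      unfold rad
      have : ∏ j, (y ∘ e) j = ∏ j, y j := Equiv.prod_comp e y
      rw [this]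
    rw [hr]
    simpa using h4

end Pool.Agent.KS6_67.NC
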