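import Pool.Agent.KS6_67.NC.Circuit

set_option autoImplicit false

open Polynomial

namespace Pool.Agent.KS6_67.NC

/-- A polynomial, given by the list of its coefficients, which vanishes everywhere has zero
coefficients. -/
theorem list_zero (l : List ℚ) (h : ∀ T : ℚ, l.foldr (fun c x => c + T * x) 0 = 0) :
    ∀ c ∈ l, c = 0 := by
  have key : ∀ l : List ℚ, l.foldr (fun c (p : ℚ[X]) => C c + X * p) 0 = 0 → ∀ c ∈ l, c = 0 := by
    intro l
    induction l with
    | nil => intro _ c hc; simp at hc
    | cons b l ih =>
      intro h c hc
      simp only [List.foldr_cons] at h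
      have hb : b = 0 := by
        have := congrArg (Polynomial.eval 0) h
        simpa using this
      subst hb
      rw [C_0, zero_add] at h
      have h2 := (mul_eq_zero.mp h).resolve_left X_ne_zero
      rcases List.mem_cons.mp hc with rfl | hc
      · rfl
      · exact ih h2 c hc
  apply key l
  apply Polynomial.funext
  intro T
  rw [eval_zero, ← h T]
  clear h key
  induction l with
  | nil => simp
  | cons b l ih =>
    simp only [List.foldr_cons, eval_add, eval_C, eval_mul, eval_X]
    rw [ih]

end Pool.Agent.KS6_67.NC
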