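import Pool.Agent.KS6_67.NC.ListZero

set_option autoImplicit false
set_option maxHeartbeats 4000000
set_option maxRecDepth 20000

open Polynomial

namespace Pool.Agent.KS6_67.NC

/-! ### The piece with 12 terms of degree 40 -/

theorem piece10_sum (T : ℚ) :
    19 * (T ^ 0 * (T + 1) ^ 27 * (T - 1) ^ 13) +
    (-19) * (T ^ 0 * (T + 1) ^ 13 * (T - 1) ^ 27) +
    (-896) * (T ^ 39 * (T + 1) ^ 0 * (T - 1) ^ 0) +
    896 * (T ^ 1 * (T + 1) ^ 0 * (T - 1) ^ 0) +
    364 * (T ^ 1 * (T + 1) ^ 19 * (T - 1) ^ 19) +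
    284544 * (T ^ 7 * (T + 1) ^ 13 * (T - 1) ^ 13) +
    1549184 * (T ^ 9 * (T + 1) ^ 11 * (T - 1) ^ 11) +
    2434432 * (T ^ 11 * (T + 1) ^ 9 * (T - 1) ^ 9) +
    2247168 * (T ^ 13 * (T + 1) ^ 7 * (T - 1) ^ 7) +
    1123584 * (T ^ 15 * (T + 1) ^ 5 * (T - 1) ^ 5) +
    255360 * (T ^ 17 * (T + 1) ^ 3 * (T - 1) ^ 3) +
    17024 * (T ^ 19 * (T + 1) ^ 1 * (T - 1) ^ 1) = 0 := by
  ring

theorem piece10_circ (e0 e1 e2 e3 e4 e5 e6 e7 e8 e9 e10 e11 : ℚ)
    (h : ∀ T : ℚ, e0 * (19 * (T ^ 0 * (T + 1) ^ 27 * (T - 1) ^ 13)) +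
      e1 * ((-19) * (T ^ 0 * (T + 1) ^ 13 * (T - 1) ^ 27)) +
      e2 * ((-896) * (T ^ 39 * (T + 1) ^ 0 * (T - 1) ^ 0)) +
      e3 * (896 * (T ^ 1 * (T + 1) ^ 0 * (T - 1) ^ 0)) +
      e4 * (364 * (T ^ 1 * (T + 1) ^ 19 * (T - 1) ^ 19)) +
      e5 * (284544 * (T ^ 7 * (T + 1) ^ 13 * (T - 1) ^ 13)) +
      e6 * (1549184 * (T ^ 9 * (T + 1) ^ 11 * (T - 1) ^ 11)) +
      e7 * (2434432 * (T ^ 11 * (T + 1) ^ 9 * (T - 1) ^ 9)) +
      e8 * (2247168 * (T ^ 13 * (T + 1) ^ 7 * (T - 1) ^ 7)) +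
      e9 * (1123584 * (T ^ 15 * (T + 1) ^ 5 * (T - 1) ^ 5)) +
      e10 * (255360 * (T ^ 17 * (T + 1) ^ 3 * (T - 1) ^ 3)) +
      e11 * (17024 * (T ^ 19 * (T + 1) ^ 1 * (T - 1) ^ 1)) = 0) :
    e0 = e2 ∧ e1 = e2 ∧ e3 = e2 ∧ e4 = e2 ∧ e5 = e2 ∧ e6 = e2 ∧ e7 = e2 ∧ e8 = e2 ∧ e9 = e2 ∧ e10 = e2 ∧ e11 = e2 := by
  have hz := list_zero
    [(-19) * e0 + 19 * e1,
      (-266) * e0 + (-266) * e1 + 896 * e3 + (-364) * e4,
      (-1482) * e0 + 1482 * e1,
      (-3458) * e0 + (-3458) * e1 + 6916 * e4,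
      1976 * e0 + (-1976) * e1,
      31122 * e0 + 31122 * e1 + (-62244) * e4,
      60762 * e0 + (-60762) * e1,
      (-34086) * e0 + (-34086) * e1 + 352716 * e4 + (-284544) * e5,
      (-317889) * e0 + 317889 * e1,
      (-369512) * e0 + (-369512) * e1 + (-1410864) * e4 + 3699072 * e5 + (-1549184) * e6,
      499928 * e0 + (-499928) * e1,
      1677624 * e0 + 1677624 * e1 + 4232592 * e4 + (-22194432) * e5 + 17041024 * e6 + (-2434432) * e7,
      707408 * e0 + (-707408) * e1,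
      (-2980568) * e0 + (-2980568) * e1 + (-9876048) * e4 + 81379584 * e5 + (-85205120) * e6 + 21909888 * e7 + (-2247168) * e8,
      (-4395384) * e0 + 4395384 * e1,
      1262664 * e0 + 1262664 * e1 + 18341232 * e4 + (-203448960) * e5 + 255615360 * e6 + (-87639552) * e7 + 15730176 * e8 + (-1123584) * e9,
      8247330 * e0 + (-8247330) * e1,
      4935060 * e0 + 4935060 * e1 + (-27511848) * e4 + 366208128 * e5 + (-511230720) * e6 + 204492288 * e7 + (-47190528) * e8 + 5617920 * e9 + (-255360) * e10,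
      (-7158060) * e0 + 7158060 * e1,
      (-11248380) * e0 + (-11248380) * e1 + 33625592 * e4 + (-488277504) * e5 + 715723008 * e6 + (-306738432) * e7 + 78650880 * e8 + (-11235840) * e9 + 766080 * e10 + (-17024) * e11,
      0,
      11248380 * e0 + 11248380 * e1 + (-33625592) * e4 + 488277504 * e5 + (-715723008) * e6 + 306738432 * e7 + (-78650880) * e8 + 11235840 * e9 + (-766080) * e10 + 17024 * e11,
      7158060 * e0 + (-7158060) * e1,
      (-4935060) * e0 + (-4935060) * e1 + 27511848 * e4 + (-366208128) * e5 + 511230720 * e6 + (-204492288) * e7 + 47190528 * e8 + (-5617920) * e9 + 255360 * e10,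
      (-8247330) * e0 + 8247330 * e1,
      (-1262664) * e0 + (-1262664) * e1 + (-18341232) * e4 + 203448960 * e5 + (-255615360) * e6 + 87639552 * e7 + (-15730176) * e8 + 1123584 * e9,
      4395384 * e0 + (-4395384) * e1,
      2980568 * e0 + 2980568 * e1 + 9876048 * e4 + (-81379584) * e5 + 85205120 * e6 + (-21909888) * e7 + 2247168 * e8,
      (-707408) * e0 + 707408 * e1,
      (-1677624) * e0 + (-1677624) * e1 + (-4232592) * e4 + 22194432 * e5 + (-17041024) * e6 + 2434432 * e7,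
      (-499928) * e0 + 499928 * e1,
      369512 * e0 + 369512 * e1 + 1410864 * e4 + (-3699072) * e5 + 1549184 * e6,
      317889 * e0 + (-317889) * e1,
      34086 * e0 + 34086 * e1 + (-352716) * e4 + 284544 * e5,
      (-60762) * e0 + 60762 * e1,
      (-31122) * e0 + (-31122) * e1 + 62244 * e4,
      (-1976) * e0 + 1976 * e1,
      3458 * e0 + 3458 * e1 + (-6916) * e4,
      1482 * e0 + (-1482) * e1,
      266 * e0 + 266 * e1 + (-896) * e2 + 364 * e4,
      19 * e0 + (-19) * e1]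
    (fun T => by
      simp only [List.foldr_cons, List.foldr_nil]
      refine Eq.trans ?_ (h T)
      ring)
  simp only [List.mem_cons, List.not_mem_nil, or_false, forall_eq_or_imp, forall_eq] at hz
  obtain ⟨h0, h1, h2, h3, h4, h5, h6, h7, h8, h9, h10, h11, h12, h13, h14, h15, h16, h17, h18, h19, h20, h21, h22, h23, h24, h25, h26, h27, h28, h29, h30, h31, h32, h33, h34, h35, h36, h37, h38, h39, h40⟩ := hz
  clear h2 h4 h5 h6 h8 h10 h12 h14 h16 h18 h20 h21 h22 h23 h24 h25 h26 h27 h28 h29 h30 h31 h32 h33 h34 h35 h36 h37 h38 h40 h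
  refine ⟨?_, ?_, ?_, ?_, ?_, ?_, ?_, ?_, ?_, ?_, ?_⟩
  · linear_combination (-1/38) * h0 + (-1/17024) * h3 + (1/896) * h39
  · linear_combination (1/38) * h0 + (-1/17024) * h3 + (1/896) * h39
  · linear_combination (1/896) * h1 + (1/896) * h39
  · linear_combination (1/11648) * h3 + (1/896) * h39
  · linear_combination (5/41496) * h3 + (-1/284544) * h7 + (1/896) * h39
  · linear_combination (23/96824) * h3 + (-1/119168) * h7 + (-1/1549184) * h9 + (1/896) * h39
  · linear_combination (5/7904) * h3 + (-5/187264) * h7 + (-1/221312) * h9 + (-1/2434432) * h11 + (1/896) * h39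
  · linear_combination (61/46816) * h3 + (-13/187264) * h7 + (-1/51072) * h9 + (-3/749056) * h11 + (-1/2247168) * h13 + (1/896) * h39
  · linear_combination (1/418) * h3 + (-13/80256) * h7 + (-1/14592) * h9 + (-9/374528) * h11 + (-1/160512) * h13 + (-1/1123584) * h15 + (1/896) * h39
  · linear_combination (11/2660) * h3 + (-13/36480) * h7 + (-11/51072) * h9 + (-1/8512) * h11 + (-1/18240) * h13 + (-1/51072) * h15 + (-1/255360) * h17 + (1/896) * h39
  · linear_combination (59/8512) * h3 + (-13/17024) * h7 + (-11/17024) * h9 + (-9/17024) * h11 + (-1/2432) * h13 + (-5/17024) * h15 + (-3/17024) * h17 + (-1/17024) * h19 + (1/896) * h39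

noncomputable def piece10 : Piece 10 where
  ι := Fin 12
  fin := inferInstance
  dec := inferInstance
  κ := ![19, -19, -896, 896, 364, 284544, 1549184, 2434432, 2247168, 1123584, 255360, 17024]
  a := ![0, 0, 39, 1, 1, 7, 9, 11, 13, 15, 17, 19]
  c := ![27, 13, 0, 0, 19, 13, 11, 9, 7, 5, 3, 1]
  d := ![13, 27, 0, 0, 19, 13, 11, 9, 7, 5, 3, 1]
  card := by simp
  ne := by decide
  deg := by decide
  sum := by
    apply Polynomial.funext
    intro T
    rw [eval_zero, ← piece10_sum T]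
    simp only [term, Fin.sum_univ_succ, Fin.sum_univ_zero, eval_add, eval_mul, eval_C, eval_pow, eval_X,
      eval_sub, eval_one, eval_zero]
    simp [Fin.succ]
    ring
  circ := by
    intro α hα
    have h := piece10_circ (α 0) (α 1) (α 2) (α 3) (α 4) (α 5) (α 6) (α 7) (α 8) (α 9) (α 10) (α 11) (fun T => by
      have h1 := congrArg (Polynomial.eval T) hα
      rw [eval_zero] at h1
      rw [← h1]
      simp only [term, Fin.sum_univ_succ, Fin.sum_univ_zero, eval_add, eval_mul, eval_C, eval_pow, eval_X,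
        eval_sub, eval_one, eval_zero]
      simp [Fin.succ]
      ring)
    have hall : ∀ i, α i = α 2 := by
      obtain ⟨k0, k1, k3, k4, k5, k6, k7, k8, k9, k10, k11⟩ := h
      intro i
      fin_cases i
      · exact k0
      · exact k1
      · rfl
      · exact k3
      · exact k4
      · exact k5
      · exact k6
      · exact k7
      · exact k8
      · exact k9
      · exact k10
      · exact k11
    intro i j
    rw [hall i, hall j]
  A := 2
  hA1 := rfl
  hA2 := rfl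
  B := 0
  hB1 := rfl
  hB2 := rfl

end Pool.Agent.KS6_67.NC
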