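import Pool.Agent.KS6_67.NC.ListZero

set_option autoImplicit false
set_option maxHeartbeats 4000000
set_option maxRecDepth 20000

open Polynomial

namespace Pool.Agent.KS6_67.NC

/-! ### The piece with 10 terms of degree 32 -/

theorem piece8_sum (T : ℚ) :
    (-65536) * (T ^ 27 * (T + 1) ^ 0 * (T - 1) ^ 0) +
    65536 * (T ^ 5 * (T + 1) ^ 0 * (T - 1) ^ 0) +
    1 * (T ^ 0 * (T + 1) ^ 27 * (T - 1) ^ 5) +
    (-1) * (T ^ 0 * (T + 1) ^ 5 * (T - 1) ^ 27) +
    (-44) * (T ^ 1 * (T + 1) ^ 15 * (T - 1) ^ 15) +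
    (-3520) * (T ^ 3 * (T + 1) ^ 13 * (T - 1) ^ 13) +
    (-13312) * (T ^ 5 * (T + 1) ^ 11 * (T - 1) ^ 11) +
    851968 * (T ^ 11 * (T + 1) ^ 5 * (T - 1) ^ 5) +
    3604480 * (T ^ 13 * (T + 1) ^ 3 * (T - 1) ^ 3) +
    720896 * (T ^ 15 * (T + 1) ^ 1 * (T - 1) ^ 1) = 0 := by
  ring

theorem piece8_circ (e0 e1 e2 e3 e4 e5 e6 e7 e8 e9 : ℚ)
    (h : ∀ T : ℚ, e0 * ((-65536) * (T ^ 27 * (T + 1) ^ 0 * (T - 1) ^ 0)) +
      e1 * (65536 * (T ^ 5 * (T + 1) ^ 0 * (T - 1) ^ 0)) +
      e2 * (1 * (T ^ 0 * (T + 1) ^ 27 * (T - 1) ^ 5)) +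
      e3 * ((-1) * (T ^ 0 * (T + 1) ^ 5 * (T - 1) ^ 27)) +
      e4 * ((-44) * (T ^ 1 * (T + 1) ^ 15 * (T - 1) ^ 15)) +
      e5 * ((-3520) * (T ^ 3 * (T + 1) ^ 13 * (T - 1) ^ 13)) +
      e6 * ((-13312) * (T ^ 5 * (T + 1) ^ 11 * (T - 1) ^ 11)) +
      e7 * (851968 * (T ^ 11 * (T + 1) ^ 5 * (T - 1) ^ 5)) +
      e8 * (3604480 * (T ^ 13 * (T + 1) ^ 3 * (T - 1) ^ 3)) +
      e9 * (720896 * (T ^ 15 * (T + 1) ^ 1 * (T - 1) ^ 1)) = 0) :
    e1 = e0 ∧ e2 = e0 ∧ e3 = e0 ∧ e4 = e0 ∧ e5 = e0 ∧ e6 = e0 ∧ e7 = e0 ∧ e8 = e0 ∧ e9 = e0 := by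
  have hz := list_zero
    [(-1) * e2 + 1 * e3,
      (-22) * e2 + (-22) * e3 + 44 * e4,
      (-226) * e2 + 226 * e3,
      (-1430) * e2 + (-1430) * e3 + (-660) * e4 + 3520 * e5,
      (-6170) * e2 + 6170 * e3,
      65536 * e1 + (-18854) * e2 + (-18854) * e3 + 4620 * e4 + (-45760) * e5 + 13312 * e6,
      (-40338) * e2 + 40338 * e3,
      (-54054) * e2 + (-54054) * e3 + (-20020) * e4 + 274560 * e5 + (-146432) * e6,
      (-17550) * e2 + 17550 * e3,
      107250 * e2 + 107250 * e3 + 60060 * e4 + (-1006720) * e5 + 732160 * e6,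
      278070 * e2 + (-278070) * e3,
      331890 * e2 + 331890 * e3 + (-132132) * e4 + 2516800 * e5 + (-2196480) * e6 + (-851968) * e7,
      98670 * e2 + (-98670) * e3,
      (-369150) * e2 + (-369150) * e3 + 220220 * e4 + (-4530240) * e5 + 4392960 * e6 + 4259840 * e7 + (-3604480) * e8,
      (-721050) * e2 + 721050 * e3,
      (-589950) * e2 + (-589950) * e3 + (-283140) * e4 + 6040320 * e5 + (-6150144) * e6 + (-8519680) * e7 + 10813440 * e8 + (-720896) * e9,
      0,
      589950 * e2 + 589950 * e3 + 283140 * e4 + (-6040320) * e5 + 6150144 * e6 + 8519680 * e7 + (-10813440) * e8 + 720896 * e9,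
      721050 * e2 + (-721050) * e3,
      369150 * e2 + 369150 * e3 + (-220220) * e4 + 4530240 * e5 + (-4392960) * e6 + (-4259840) * e7 + 3604480 * e8,
      (-98670) * e2 + 98670 * e3,
      (-331890) * e2 + (-331890) * e3 + 132132 * e4 + (-2516800) * e5 + 2196480 * e6 + 851968 * e7,
      (-278070) * e2 + 278070 * e3,
      (-107250) * e2 + (-107250) * e3 + (-60060) * e4 + 1006720 * e5 + (-732160) * e6,
      17550 * e2 + (-17550) * e3,
      54054 * e2 + 54054 * e3 + 20020 * e4 + (-274560) * e5 + 146432 * e6,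
      40338 * e2 + (-40338) * e3,
      (-65536) * e0 + 18854 * e2 + 18854 * e3 + (-4620) * e4 + 45760 * e5 + (-13312) * e6,
      6170 * e2 + (-6170) * e3,
      1430 * e2 + 1430 * e3 + 660 * e4 + (-3520) * e5,
      226 * e2 + (-226) * e3,
      22 * e2 + 22 * e3 + (-44) * e4,
      1 * e2 + (-1) * e3]
    (fun T => by
      simp only [List.foldr_cons, List.foldr_nil]
      refine Eq.trans ?_ (h T)
      ring)
  simp only [List.mem_cons, List.not_mem_nil, or_false, forall_eq_or_imp, forall_eq] at hz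
  obtain ⟨h0, h1, h2, h3, h4, h5, h6, h7, h8, h9, h10, h11, h12, h13, h14, h15, h16, h17, h18, h19, h20, h21, h22, h23, h24, h25, h26, h27, h28, h29, h30, h31, h32⟩ := hz
  clear h2 h4 h6 h8 h9 h10 h12 h14 h16 h17 h18 h19 h20 h21 h22 h23 h24 h25 h26 h28 h29 h30 h31 h32 h
  refine ⟨?_, ?_, ?_, ?_, ?_, ?_, ?_, ?_, ?_⟩
  · linear_combination (1/65536) * h5 + (1/65536) * h27
  · linear_combination (-1/2) * h0 + (-25/65536) * h1 + (-65/720896) * h3 + (-1/720896) * h7 + (1/65536) * h27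
  · linear_combination (1/2) * h0 + (-25/65536) * h1 + (-65/720896) * h3 + (-1/720896) * h7 + (1/65536) * h27
  · linear_combination (16109/720896) * h1 + (-65/720896) * h3 + (-1/720896) * h7 + (1/65536) * h27
  · linear_combination (2797/720896) * h1 + (699/3604480) * h3 + (-1/720896) * h7 + (1/65536) * h27
  · linear_combination (295/65536) * h1 + (29/65536) * h3 + (-7/851968) * h7 + (1/65536) * h27
  · linear_combination (-1/256) * h1 + (-225/360448) * h3 + (19/1171456) * h7 + (-1/851968) * h11 + (1/65536) * h27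
  · linear_combination (-21/8192) * h1 + (-1547/3604480) * h3 + (1/90112) * h7 + (-1/720896) * h11 + (-1/3604480) * h13 + (1/65536) * h27
  · linear_combination (-415/65536) * h1 + (-741/720896) * h3 + (13/360448) * h7 + (-5/720896) * h11 + (-3/720896) * h13 + (-1/720896) * h15 + (1/65536) * h27

noncomputable def piece8 : Piece 8 where
  ι := Fin 10
  fin := inferInstance
  dec := inferInstance
  κ := ![-65536, 65536, 1, -1, -44, -3520, -13312, 851968, 3604480, 720896]
  a := ![27, 5, 0, 0, 1, 3, 5, 11, 13, 15]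
  c := ![0, 0, 27, 5, 15, 13, 11, 5, 3, 1]
  d := ![0, 0, 5, 27, 15, 13, 11, 5, 3, 1]
  card := by simp
  ne := by decide
  deg := by decide
  sum := by
    apply Polynomial.funext
    intro T
    rw [eval_zero, ← piece8_sum T]
    simp only [term, Fin.sum_univ_succ, Fin.sum_univ_zero, eval_add, eval_mul, eval_C, eval_pow, eval_X,
      eval_sub, eval_one, eval_zero]
    simp [Fin.succ]
    ring
  circ := by
    intro α hα
    have h := piece8_circ (α 0) (α 1) (α 2) (α 3) (α 4) (α 5) (α 6) (α 7) (α 8) (α 9) (fun T => by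
      have h1 := congrArg (Polynomial.eval T) hα
      rw [eval_zero] at h1
      rw [← h1]
      simp only [term, Fin.sum_univ_succ, Fin.sum_univ_zero, eval_add, eval_mul, eval_C, eval_pow, eval_X,
        eval_sub, eval_one, eval_zero]
      simp [Fin.succ]
      ring)
    have hall : ∀ i, α i = α 0 := by
      obtain ⟨k1, k2, k3, k4, k5, k6, k7, k8, k9⟩ := h
      intro i
      fin_cases i
      · rfl
      · exact k1
      · exact k2
      · exact k3
      · exact k4
      · exact k5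
      · exact k6
      · exact k7
      · exact k8
      · exact k9
    intro i j
    rw [hall i, hall j]
  A := 0
  hA1 := rfl
  hA2 := rfl
  B := 2
  hB1 := rfl
  hB2 := rfl

end Pool.Agent.KS6_67.NC
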