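import Pool.Agent.KS6_67.NC.ListZero

set_option autoImplicit false
set_option maxHeartbeats 4000000
set_option maxRecDepth 20000

open Polynomial

namespace Pool.Agent.KS6_67.NC

/-! ### The piece with 11 terms of degree 36 -/

theorem piece9_sum (T : ℚ) :
    (-720896) * (T ^ 31 * (T + 1) ^ 0 * (T - 1) ^ 0) +
    720896 * (T ^ 5 * (T + 1) ^ 0 * (T - 1) ^ 0) +
    9371648 * (T ^ 23 * (T + 1) ^ 2 * (T - 1) ^ 2) +
    (-9371648) * (T ^ 9 * (T + 1) ^ 2 * (T - 1) ^ 2) +
    13 * (T ^ 0 * (T + 1) ^ 29 * (T - 1) ^ 7) +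
    (-13) * (T ^ 0 * (T + 1) ^ 7 * (T - 1) ^ 29) +
    (-572) * (T ^ 1 * (T + 1) ^ 17 * (T - 1) ^ 17) +
    (-45760) * (T ^ 3 * (T + 1) ^ 15 * (T - 1) ^ 15) +
    (-304128) * (T ^ 5 * (T + 1) ^ 13 * (T - 1) ^ 13) +
    (-7667712) * (T ^ 11 * (T + 1) ^ 7 * (T - 1) ^ 7) +
    9371648 * (T ^ 17 * (T + 1) ^ 1 * (T - 1) ^ 1) = 0 := by
  ring

theorem piece9_circ (e0 e1 e2 e3 e4 e5 e6 e7 e8 e9 e10 : ℚ)
    (h : ∀ T : ℚ, e0 * ((-720896) * (T ^ 31 * (T + 1) ^ 0 * (T - 1) ^ 0)) +
      e1 * (720896 * (T ^ 5 * (T + 1) ^ 0 * (T - 1) ^ 0)) +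
      e2 * (9371648 * (T ^ 23 * (T + 1) ^ 2 * (T - 1) ^ 2)) +
      e3 * ((-9371648) * (T ^ 9 * (T + 1) ^ 2 * (T - 1) ^ 2)) +
      e4 * (13 * (T ^ 0 * (T + 1) ^ 29 * (T - 1) ^ 7)) +
      e5 * ((-13) * (T ^ 0 * (T + 1) ^ 7 * (T - 1) ^ 29)) +
      e6 * ((-572) * (T ^ 1 * (T + 1) ^ 17 * (T - 1) ^ 17)) +
      e7 * ((-45760) * (T ^ 3 * (T + 1) ^ 15 * (T - 1) ^ 15)) +
      e8 * ((-304128) * (T ^ 5 * (T + 1) ^ 13 * (T - 1) ^ 13)) +
      e9 * ((-7667712) * (T ^ 11 * (T + 1) ^ 7 * (T - 1) ^ 7)) +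
      e10 * (9371648 * (T ^ 17 * (T + 1) ^ 1 * (T - 1) ^ 1)) = 0) :
    e1 = e0 ∧ e2 = e0 ∧ e3 = e0 ∧ e4 = e0 ∧ e5 = e0 ∧ e6 = e0 ∧ e7 = e0 ∧ e8 = e0 ∧ e9 = e0 ∧ e10 = e0 := by
  have hz := list_zero
    [(-13) * e4 + 13 * e5,
      (-286) * e4 + (-286) * e5 + 572 * e6,
      (-2912) * e4 + 2912 * e5,
      (-18018) * e4 + (-18018) * e5 + (-9724) * e6 + 45760 * e7,
      (-74347) * e4 + 74347 * e5,
      720896 * e1 + (-208208) * e4 + (-208208) * e5 + 77792 * e6 + (-686400) * e7 + 304128 * e8,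
      (-366912) * e4 + 366912 * e5,
      (-231088) * e4 + (-231088) * e5 + (-388960) * e6 + 4804800 * e7 + (-3953664) * e8,
      740428 * e4 + (-740428) * e5,
      (-9371648) * e3 + 2554552 * e4 + 2554552 * e5 + 1361360 * e6 + (-20820800) * e7 + 23721984 * e8,
      3546816 * e4 + (-3546816) * e5,
      18743296 * e3 + 823368 * e4 + 823368 * e5 + (-3539536) * e6 + 62462400 * e7 + (-86980608) * e8 + 7667712 * e9,
      (-6175260) * e4 + 6175260 * e5,
      (-9371648) * e3 + (-12033840) * e4 + (-12033840) * e5 + 7079072 * e6 + (-137417280) * e7 + 217451520 * e8 + (-53673984) * e9,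
      (-8324160) * e4 + 8324160 * e5,
      6243120 * e4 + 6243120 * e5 + (-11124256) * e6 + 229028800 * e7 + (-391412736) * e8 + 161021952 * e9,
      20030010 * e4 + (-20030010) * e5,
      18209100 * e4 + 18209100 * e5 + 13905320 * e6 + (-294465600) * e7 + 521883648 * e8 + (-268369920) * e9 + (-9371648) * e10,
      0,
      (-18209100) * e4 + (-18209100) * e5 + (-13905320) * e6 + 294465600 * e7 + (-521883648) * e8 + 268369920 * e9 + 9371648 * e10,
      (-20030010) * e4 + 20030010 * e5,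
      (-6243120) * e4 + (-6243120) * e5 + 11124256 * e6 + (-229028800) * e7 + 391412736 * e8 + (-161021952) * e9,
      8324160 * e4 + (-8324160) * e5,
      9371648 * e2 + 12033840 * e4 + 12033840 * e5 + (-7079072) * e6 + 137417280 * e7 + (-217451520) * e8 + 53673984 * e9,
      6175260 * e4 + (-6175260) * e5,
      (-18743296) * e2 + (-823368) * e4 + (-823368) * e5 + 3539536 * e6 + (-62462400) * e7 + 86980608 * e8 + (-7667712) * e9,
      (-3546816) * e4 + 3546816 * e5,
      9371648 * e2 + (-2554552) * e4 + (-2554552) * e5 + (-1361360) * e6 + 20820800 * e7 + (-23721984) * e8,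
      (-740428) * e4 + 740428 * e5,
      231088 * e4 + 231088 * e5 + 388960 * e6 + (-4804800) * e7 + 3953664 * e8,
      366912 * e4 + (-366912) * e5,
      (-720896) * e0 + 208208 * e4 + 208208 * e5 + (-77792) * e6 + 686400 * e7 + (-304128) * e8,
      74347 * e4 + (-74347) * e5,
      18018 * e4 + 18018 * e5 + 9724 * e6 + (-45760) * e7,
      2912 * e4 + (-2912) * e5,
      286 * e4 + 286 * e5 + (-572) * e6,
      13 * e4 + (-13) * e5]
    (fun T => by
      simp only [List.foldr_cons, List.foldr_nil]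
      refine Eq.trans ?_ (h T)
      ring)
  simp only [List.mem_cons, List.not_mem_nil, or_false, forall_eq_or_imp, forall_eq] at hz
  obtain ⟨h0, h1, h2, h3, h4, h5, h6, h7, h8, h9, h10, h11, h12, h13, h14, h15, h16, h17, h18, h19, h20, h21, h22, h23, h24, h25, h26, h27, h28, h29, h30, h31, h32, h33, h34, h35, h36⟩ := hz
  clear h2 h4 h6 h8 h10 h12 h13 h14 h15 h16 h18 h19 h20 h21 h22 h24 h25 h26 h27 h28 h29 h30 h32 h33 h34 h35 h36 h
  refine ⟨?_, ?_, ?_, ?_, ?_, ?_, ?_, ?_, ?_, ?_⟩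
  · linear_combination (1/720896) * h5 + (1/720896) * h31
  · linear_combination (-11543/9371648) * h1 + (-1483/9371648) * h3 + (7/4685824) * h7 + (-7/4685824) * h9 + (-7/9371648) * h11 + (1/9371648) * h23 + (1/720896) * h31
  · linear_combination (833/9371648) * h1 + (85/9371648) * h3 + (-7/9371648) * h7 + (-1/9371648) * h9 + (1/720896) * h31
  · linear_combination (-1/26) * h0 + (-17/360448) * h1 + (-45/4685824) * h3 + (-1/9371648) * h7 + (1/720896) * h31
  · linear_combination (1/26) * h0 + (-17/360448) * h1 + (-45/4685824) * h3 + (-1/9371648) * h7 + (1/720896) * h31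
  · linear_combination (7971/4685824) * h1 + (-45/4685824) * h3 + (-1/9371648) * h7 + (1/720896) * h31
  · linear_combination (7599/23429120) * h1 + (287/23429120) * h3 + (-1/9371648) * h7 + (1/720896) * h31
  · linear_combination (2261/9732096) * h1 + (5/294912) * h3 + (-7/19464192) * h7 + (1/720896) * h31
  · linear_combination (5355/9371648) * h1 + (5735/84344832) * h3 + (-119/84344832) * h7 + (1/3833856) * h9 + (1/7667712) * h11 + (1/720896) * h31
  · linear_combination (-13209/1171456) * h1 + (-6745/4685824) * h3 + (217/9371648) * h7 + (-35/4685824) * h9 + (-35/9371648) * h11 + (-1/9371648) * h17 + (1/720896) * h31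

noncomputable def piece9 : Piece 9 where
  ι := Fin 11
  fin := inferInstance
  dec := inferInstance
  κ := ![-720896, 720896, 9371648, -9371648, 13, -13, -572, -45760, -304128, -7667712, 9371648]
  a := ![31, 5, 23, 9, 0, 0, 1, 3, 5, 11, 17]
  c := ![0, 0, 2, 2, 29, 7, 17, 15, 13, 7, 1]
  d := ![0, 0, 2, 2, 7, 29, 17, 15, 13, 7, 1]
  card := by simp
  ne := by decide
  deg := by decide
  sum := by
    apply Polynomial.funext
    intro T
    rw [eval_zero, ← piece9_sum T]
    simp only [term, Fin.sum_univ_succ, Fin.sum_univ_zero, eval_add, eval_mul, eval_C, eval_pow, eval_X,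
      eval_sub, eval_one, eval_zero]
    simp [Fin.succ]
    ring
  circ := by
    intro α hα
    have h := piece9_circ (α 0) (α 1) (α 2) (α 3) (α 4) (α 5) (α 6) (α 7) (α 8) (α 9) (α 10) (fun T => by
      have h1 := congrArg (Polynomial.eval T) hα
      rw [eval_zero] at h1
      rw [← h1]
      simp only [term, Fin.sum_univ_succ, Fin.sum_univ_zero, eval_add, eval_mul, eval_C, eval_pow, eval_X,
        eval_sub, eval_one, eval_zero]
      simp [Fin.succ]
      ring)
    have hall : ∀ i, α i = α 0 := by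
      obtain ⟨k1, k2, k3, k4, k5, k6, k7, k8, k9, k10⟩ := h
      intro i
      fin_cases i
      · rfl
      · exact k1
      · exact k2
      · exact k3
      · exact k4
      · exact k5
      · exact k6
      · exact k7
      · exact k8
      · exact k9
      · exact k10
    intro i j
    rw [hall i, hall j]
  A := 0
  hA1 := rfl
  hA2 := rfl
  B := 4
  hB1 := rfl
  hB2 := rfl

end Pool.Agent.KS6_67.NC
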